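import Mathlib
import Pool.Agent.L5helper35.BoxMain

/-!
# The volume of one-bend orthogonal box-drawings of complete graphs is cubic

`V₁(n) = Θ(n³)`. The upper bound is the construction of Biedl et al.; the lower bound `Ω(n³)` is new.

Proof of the lower bound. The routes are disjoint, so it is enough to find `c n²` routes that contain at least
`c n` grid points each.
* Boxes joined by a route with at most one bend have overlapping projections to at least one axis. So for one
  axis, say the `z`-axis, a positive fraction of the pairs overlap in it, and linearly many boxes meet a common
  plane `z = z₀`. Keep these.
* If a positive fraction of the pairs of these boxes overlap in a second direction too, then linearly many boxes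
  meet a common line, their projections to the line are disjoint intervals, and most pairs of them
  are at distance at least `c n`.
* Otherwise most pairs overlap in the direction `z` only. The route of such a pair lies in a horizontal plane
  `z = h`. If `h ≥ z₀`, charge it to the box of the pair with the lower top, and if `h < z₀`
  to the one with the higher bottom. Fix a box `v` and let the route of `uv` be charged to `v` at `v`. All
  boxes `u` of such pairs meet the planes of the routes charged to `v` on the same side of `z₀`, so they
  have pairwise disjoint projections to the `xy`-plane. If two routes from `v` to `u` and
  `u'` have the last segment on the same line of the `xy`-plane and on the same side of `v`,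
  then the longer one meets the box of the shorter one. Hence there are at most `16 m` routes charged to `v`
  with at most `m` grid points, and most routes contain at least `c n` grid points.

The definitions (`Drawing`, `Drawing.Within`, `gridVolume`, `V₁`) are in `Pool/Agent/L5helper35/BoxDefs.lean`,
the lower bound is `Core.bound` in `Pool/Agent/L5helper35/BoxCore.lean`.
-/

set_option autoImplicit false

namespace Pool.Agent.Results.MP_40073f_co.CubicVolume

open Pool.Agent.L5helper35.Box

/-- `V₁(n) = Θ(n³)`. -/
theorem result : ∃ c C : ℝ, 0 < c ∧ 0 < C ∧
    ∀ n : ℕ, 1 ≤ n → c * (n : ℝ) ^ 3 ≤ V₁ n ∧ (V₁ n : ℝ) ≤ C * (n : ℝ) ^ 3 :=
  ⟨1 / 10 ^ 12, 12, by norm_num, by norm_num, theta⟩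

end Pool.Agent.Results.MP_40073f_co.CubicVolume
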